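import Pool.Agent.E8helper95.NP.Fin
import Pool.Agent.E8helper95.NP.V
import Pool.Agent.E8helper95.NP.B0
import Pool.Agent.E8helper30.NP.I1
import Pool.Agent.E8helper99.NP.I0
import Pool.Agent.E8helper56.NP.EQ
import Pool.Agent.E8helper98.NP.A
import Pool.Agent.E8helper81.NP.B1

/-!
# 2-near perfect numbers of the form `2 ^ k * p ^ m` with `m ≥ 2`

They are `18 = 2 * 3 ^ 2`, `36 = 2 ^ 2 * 3 ^ 2`, `200 = 2 ^ 3 * 5 ^ 2` and the numbers `2 ^ k * p ^ 3`
with `p = 2 ^ (k + 1) - 1` prime (omitted divisors `p` and `p ^ 2`). Hence there are only finitely many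
of them if and only if there are only finitely many Mersenne primes.

Proof. Put `M = 2 ^ (k + 1)` and `S = 1 + p + ... + p ^ (m - 1)`. With omitted divisors `d₁, d₂` the
equation is `(M - p) S = 1 + d₁ + d₂`. If no `dᵢ` is divisible by `p ^ m` then `M < 4 p` and the
equation is solved by congruences modulo `p`. If `d₂ = 2 ^ a * p ^ m` put
`h = M - p - (p - 1) 2 ^ a`; then `S h = 1 + 2 ^ a + d₁` and `2 ^ a` divides `h + p` with an even
quotient; together with the exact power of `2` which divides `σ(p ^ m)` the sizes of the terms leave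
only `36` and `200`.
-/

set_option autoImplicit false

namespace Pool.Agent.Results.MP_d695ac_nt.ClassificationH95

/-- `n` is 2-near perfect: `σ(n) = 2 n + d₁ + d₂` for two distinct divisors `d₁, d₂` of `n` -/
def TwoNearPerfect (n : ℕ) : Prop :=
  0 < n ∧ ∃ d₁ ∈ n.divisors, ∃ d₂ ∈ n.divisors, d₁ ≠ d₂ ∧ ∑ d ∈ n.divisors, d = 2 * n + d₁ + d₂

/-- The classification of the 2-near perfect numbers `2 ^ k * p ^ m` with `p` prime and `m ≥ 2`; there
are finitely many of them if and only if there are finitely many Mersenne primes. -/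
theorem result :
    (∀ k p m : ℕ, p.Prime → 2 ≤ m → (TwoNearPerfect (2 ^ k * p ^ m) ↔
      (k = 1 ∧ p = 3 ∧ m = 2) ∨ (k = 2 ∧ p = 3 ∧ m = 2) ∨ (k = 3 ∧ p = 5 ∧ m = 2) ∨
        (m = 3 ∧ p + 1 = 2 ^ (k + 1)))) ∧
    ({n : ℕ | TwoNearPerfect n ∧ ∃ k p m : ℕ, p.Prime ∧ 2 ≤ m ∧ n = 2 ^ k * p ^ m}.Finite ↔
      {p : ℕ | p.Prime ∧ ∃ j : ℕ, p + 1 = 2 ^ j}.Finite) :=
  Pool.Agent.E8helper95.NP.final Pool.Agent.E8helper95.NP.t_RED Pool.Agent.E8helper95.NP.t_V
    Pool.Agent.E8helper30.NP.t_I1 Pool.Agent.E8helper99.NP.t_I0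
    (Pool.Agent.E8helper56.NP.t_EQ Pool.Agent.E8helper95.NP.t_V) Pool.Agent.E8helper98.NP.t_A
    Pool.Agent.E8helper95.NP.t_B0 (Pool.Agent.E8helper81.NP.t_B1 Pool.Agent.E8helper95.NP.t_V)
    Pool.Agent.E8helper95.NP.t_C

end Pool.Agent.Results.MP_d695ac_nt.ClassificationH95
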